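import Pool.Agent.helper60.EPT.Spec

/-!
# Project EPT, row GRS
-/

set_option autoImplicit false

namespace Pool.Agent.EPT

open D

/-- the unary number `2 i + 1` -/
def GRS_n : ℕ → D
  | 0 => one
  | i + 1 => cons nil (cons nil (GRS_n i))

/-- the groups -/
def GRS_G (L : List D) : ℕ → D
  | 0 => nil
  | i + 1 => cons (cons (GRS_n i) (ofList ((L.drop (i ^ 2)).take (2 * i + 1)))) (GRS_G L i)

theorem GRS_n_size (i : ℕ) : (GRS_n i).size = 4 * i + 3 := by
  induction i with
  | zero => simp [GRS_n, one]
  | succ i ih => simp only [GRS_n, size_cons, size_nil, ih]; ring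

theorem GRS_n_len (i : ℕ) : (GRS_n i).toList.length = 2 * i + 1 := by
  induction i with
  | zero => simp [GRS_n, one]
  | succ i ih => simp only [GRS_n, toList_cons, List.length_cons, ih]; ring

theorem GRS_inv (L : List D) (i : ℕ) : ∃ j : ℕ, j ≤ i ∧ (j = i ∨ L.drop (j ^ 2) = []) ∧ (∀ a, j = a + 1 → a ^ 2 < L.length) ∧
    gst^[i] (cons one (cons (ofList L) nil)) = cons (GRS_n j) (cons (ofList (L.drop (j ^ 2))) (GRS_G L j)) := by
  induction i with
  | zero => exact ⟨0, le_rfl, Or.inl rfl, fun a ha => by omega, by simp [GRS_n, GRS_G]⟩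
  | succ i ih =>
    obtain ⟨j, hj, hji, hjl, e⟩ := ih
    rw [Function.iterate_succ_apply', e]
    by_cases h : L.drop (j ^ 2) = []
    · refine ⟨j, by omega, Or.inr h, hjl, ?_⟩
      unfold gst
      simp [h]
    · have hjeq : j = i := by
        rcases hji with h' | h'
        · exact h'
        · exact absurd h' h
      refine ⟨j + 1, by omega, Or.inl (by omega), ?_, ?_⟩
      · intro a ha
        have : a = j := by omega
        subst this
        by_contra hc
        exact h (List.drop_eq_nil_of_le (by omega))
      · unfold gst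
        have hne : ofList (L.drop (j ^ 2)) ≠ nil := by
          intro h'
          apply h
          have := congrArg toList h'
          simpa using this
        simp only [snd_cons, fst_cons, hne, if_false, toList_ofList, GRS_n_len, List.drop_drop]
        have e2 : j ^ 2 + (2 * j + 1) = (j + 1) ^ 2 := by ring
        rw [e2]
        simp only [GRS_n, GRS_G]

theorem GRS_G_len (L : List D) (j : ℕ) : (GRS_G L j).toList.length = j := by
  induction j with
  | zero => rfl
  | succ j ih => simp [GRS_G, ih]

theorem GRS_G_mem (L : List D) (j : ℕ) (g : D) (hg : g ∈ (GRS_G L j).toList) :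
    ∃ i, i < j ∧ g = cons (GRS_n i) (ofList ((L.drop (i ^ 2)).take (2 * i + 1))) := by
  induction j with
  | zero => simp [GRS_G] at hg
  | succ j ih =>
    simp only [GRS_G, toList_cons, List.mem_cons] at hg
    rcases hg with h | h
    · exact ⟨j, by omega, h⟩
    · obtain ⟨i, hi, e⟩ := ih h
      exact ⟨i, by omega, e⟩

theorem GRS_G_nodup (L : List D) (j : ℕ) : ((GRS_G L j).toList.map fst).Nodup := by
  induction j with
  | zero => simp [GRS_G]
  | succ j ih =>
    simp only [GRS_G, toList_cons, List.map_cons, fst_cons, List.nodup_cons]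
    refine ⟨?_, ih⟩
    intro h
    obtain ⟨g, hg, e⟩ := List.mem_map.1 h
    obtain ⟨i, hi, e'⟩ := GRS_G_mem L j g hg
    rw [e'] at e
    have := congrArg size e
    simp only [fst_cons, GRS_n_size] at this
    omega

theorem GRS_G_take (L : List D) (j : ℕ) (c : D) :
    c ∈ L.take (j ^ 2) ↔ ∃ g ∈ (GRS_G L j).toList, c ∈ g.snd.toList := by
  induction j with
  | zero => simp [GRS_G]
  | succ j ih =>
    have e : L.take ((j + 1) ^ 2) = L.take (j ^ 2) ++ (L.drop (j ^ 2)).take (2 * j + 1) := by
      have : (j + 1) ^ 2 = j ^ 2 + (2 * j + 1) := by ring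
      rw [this, List.take_add]
    rw [e, List.mem_append, ih]
    simp only [GRS_G, toList_cons, List.mem_cons]
    constructor
    · rintro (⟨g, hg, h⟩ | h)
      · exact ⟨g, Or.inr hg, h⟩
      · exact ⟨_, Or.inl rfl, by simpa using h⟩
    · rintro ⟨g, hg | hg, h⟩
      · right; rw [hg] at h; simpa using h
      · exact Or.inl ⟨g, hg, h⟩

theorem GRS : GRS_stmt := by
  intro z
  obtain ⟨j, hj, hji, hjl, e⟩ := GRS_inv z.toList z.toList.length
  have eg : grp z = GRS_G z.toList j := by
    unfold grp
    have : gst^[z.toList.length] (cons one (cons z nil)) = gst^[z.toList.length] (cons one (cons (ofList z.toList) nil)) := by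
      rw [ofList_toList]
    rw [this, e]
    rfl
  have hm : z.toList.length ≤ j ^ 2 := by
    rcases hji with h | h
    · rw [h]; nlinarith [Nat.zero_le z.toList.length]
    · exact List.drop_eq_nil_iff.1 h
  rw [eg, GRS_G_len]
  refine ⟨GRS_G_nodup _ _, ?_, hm, ?_, ?_⟩
  · intro g hg
    obtain ⟨i, hi, e'⟩ := GRS_G_mem _ _ _ hg
    rw [e']
    simp only [fst_cons, snd_cons, toList_ofList, GRS_n_size]
    refine ⟨by omega, (List.length_take_le _ _).trans (by omega)⟩
  · rcases j with _ | a
    · omega
    · have := hjl a rfl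
      have := Nat.le_sqrt'.2 this.le
      omega
  · intro c
    rw [← GRS_G_take, List.take_of_length_le hm]

end Pool.Agent.EPT
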